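import Pool.Agent.KS6_88.CB.Cpl

/-!
# Charged bosons with kinetic energy `|p|^α`: all `α ≥ 1`, including the relativistic case

For every `α ≥ 1` the best constant in the scale invariant inequality
`-P(ψ) ≤ B K(ψ)^{1/α}` for `N` particles is of the order `N^{κ(α)}`,
`κ(α) = (α² + 3 α - 3) / (α (α + 3))`. For `α = 1` this is the inequality
`-P(ψ) ≤ C N^{1/4} K(ψ)` for relativistic particles, and `1/4` is optimal; the critical coupling
constant of `N` relativistic particles is of the order `N^{-1/4}`. For `α > 1` the theorem contains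
the two-sided bound of the ground state energy.
-/

set_option autoImplicit false

noncomputable section

namespace Pool.Agent.Results.MP_d1ae63_mp.EndpointOne

open MeasureTheory
open scoped ENNReal FourierTransform

/-- The Hilbert space `L²(E)` of complex functions. -/
abbrev L2 (E : Type) [MeasureSpace E] : Type := Lp ℂ 2 (volume : Measure E)

/-- The quadratic form of the Fourier multiplier with symbol `w` (possibly infinite): the integral
of `w(ξ) |ψ̂(ξ)|²`, where `ψ̂ = 𝓕 ψ` is the unitary Fourier transform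
`ψ̂(ξ) = ∫ exp (-2 π i x·ξ) ψ(x) dx`. -/
def kinForm {E : Type} [NormedAddCommGroup E] [InnerProductSpace ℝ E] [FiniteDimensional ℝ E]
    [MeasurableSpace E] [BorelSpace E] (w : E → ℝ) (ψ : L2 E) : ℝ≥0∞ :=
  ∫⁻ ξ, ENNReal.ofReal (w ξ * ‖(𝓕 ψ : L2 E) ξ‖ ^ 2)

/-- The potential energy `⟨ψ, V ψ⟩`. -/
def potForm {E : Type} [MeasureSpace E] (V : E → ℝ) (ψ : L2 E) : ℝ := ∫ x, V x * ‖ψ x‖ ^ 2

/-- The potential energy is an absolutely convergent integral. -/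
def PotConv {E : Type} [MeasureSpace E] (V : E → ℝ) (ψ : L2 E) : Prop :=
  Integrable fun x => V x * ‖ψ x‖ ^ 2

section forms

variable {E : Type} [NormedAddCommGroup E] [InnerProductSpace ℝ E] [FiniteDimensional ℝ E]
  [MeasurableSpace E] [BorelSpace E]

/-- Normalised functions with finite kinetic and absolutely convergent potential energy. -/
def Dom (w V : E → ℝ) (ψ : L2 E) : Prop := ‖ψ‖ = 1 ∧ kinForm w ψ ≠ ⊤ ∧ PotConv V ψ

/-- For all normalised `ψ` with finite kinetic energy the potential energy converges absolutely and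
`-P(ψ) ≤ B K(ψ)^{1/α}`. -/
def PotLe (α B : ℝ) (w V : E → ℝ) : Prop :=
  ∀ ψ : L2 E, ‖ψ‖ = 1 → kinForm w ψ ≠ ⊤ →
    PotConv V ψ ∧ -potForm V ψ ≤ B * (kinForm w ψ).toReal ^ (1 / α)

/-- There is a normalised `ψ` in the form domain with `-P(ψ) > 0` and
`-P(ψ) ≥ B K(ψ)^{1/α}`. -/
def PotGe (α B : ℝ) (w V : E → ℝ) : Prop :=
  ∃ ψ : L2 E, Dom w V ψ ∧ 0 < -potForm V ψ ∧ B * (kinForm w ψ).toReal ^ (1 / α) ≤ -potForm V ψ

/-- All values `⟨ψ, w ψ⟩ + g ⟨ψ, V ψ⟩` of the energy with the coupling constant `g`, where `V` runs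
over the set `𝒱` of potentials and `ψ` over the normalised functions in the form domain. -/
def energySet (g : ℝ) (w : E → ℝ) (𝒱 : Set (E → ℝ)) : Set ℝ :=
  {ε | ∃ V ∈ 𝒱, ∃ ψ : L2 E, Dom w V ψ ∧ ε = (kinForm w ψ).toReal + g * potForm V ψ}

end forms

/-- Configurations of `N` particles in `ℝ³`; the coordinate `(i, a)` is the `a`-th coordinate of
the position of the `i`-th particle. -/
abbrev Cfg (N : ℕ) : Type := EuclideanSpace ℝ (Fin N × Fin 3)

/-- The position of the `i`-th particle. -/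
def pos {N : ℕ} (x : Cfg N) (i : Fin N) : EuclideanSpace ℝ (Fin 3) :=
  WithLp.toLp 2 fun a => x (i, a)

/-- The symbol of the kinetic energy `∑ i, |p_i|^α`; the momentum `p_i` is multiplication
by `2 π ξ_i`. -/
def symb (α : ℝ) (N : ℕ) (ξ : Cfg N) : ℝ := ∑ i, (2 * Real.pi * ‖pos ξ i‖) ^ α

/-- The Coulomb potential `∑_{i<j} e_i e_j / |x_i - x_j|`. -/
def coul {N : ℕ} (e : Fin N → ℝ) (x : Cfg N) : ℝ :=
  ∑ i, ∑ j, if i < j then e i * e j / ‖pos x i - pos x j‖ else 0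

/-- An assignment of charges `±1`. -/
def IsCharge {N : ℕ} (e : Fin N → ℝ) : Prop := ∀ i, e i = 1 ∨ e i = -1

/-- The Coulomb potentials of all assignments of charges `±1`. -/
def coulombs (N : ℕ) : Set (Cfg N → ℝ) := {V | ∃ e : Fin N → ℝ, IsCharge e ∧ V = coul e}

/-- The values `K(ψ) + g P(ψ)` of the energy over all charge assignments `±1` and all normalised
`ψ` in the form domain. -/
def energies (α g : ℝ) (N : ℕ) : Set ℝ := energySet g (symb α N) (coulombs N)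

/-- The ground state energy `E₀^{(α)}(N)` (coupling constant `1`). -/
def E0 (α : ℝ) (N : ℕ) : ℝ := sInf (energies α 1 N)

/-- The exponent `γ(α)`. -/
def gam (α : ℝ) : ℝ := (α ^ 2 + 3 * α - 3) / ((α - 1) * (α + 3))

/-- The exponent `κ(α)` of the scale invariant inequality; `κ(1) = 1/4`. -/
def kap (α : ℝ) : ℝ := (α ^ 2 + 3 * α - 3) / (α * (α + 3))

/-- The scale invariant inequality `-P ≤ C N^{κ(α)} K^{1/α}` for all real charges `|e_i| ≤ 1`. -/
def UpperBound (α : ℝ) (N : ℕ) (C : ℝ) : Prop :=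
  ∀ e : Fin N → ℝ, (∀ i, |e i| ≤ 1) → PotLe α (C * (N : ℝ) ^ kap α) (symb α N) (coul e)

/-- Its optimality: `-P ≥ c N^{κ(α)} K^{1/α}`, `-P > 0`, for some charges `±1` and some `ψ`. -/
def Optimality (α : ℝ) (N : ℕ) (c : ℝ) : Prop :=
  ∃ e : Fin N → ℝ, IsCharge e ∧ PotGe α (c * (N : ℝ) ^ kap α) (symb α N) (coul e)

/-- The two-sided bound of the ground state energy (a genuine infimum). -/
def EnergyOrder (α : ℝ) (N : ℕ) (c C : ℝ) : Prop :=
  (energies α 1 N).Nonempty ∧ BddBelow (energies α 1 N) ∧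
    -(C * (N : ℝ) ^ gam α) ≤ E0 α N ∧ E0 α N ≤ -(c * (N : ℝ) ^ gam α)

/-- Relativistic particles: `K + g P ≥ 0` for all couplings `0 < g ≤ (C N^{1/4})⁻¹`, and `K + g P`
is unbounded below for all `g > (c N^{1/4})⁻¹`. -/
def CouplingOrder (N : ℕ) (c C : ℝ) : Prop :=
  ∀ g : ℝ, 0 < g →
    (g ≤ (C * (N : ℝ) ^ (1 / 4 : ℝ))⁻¹ → ∀ ε ∈ energies 1 g N, 0 ≤ ε) ∧
    ((c * (N : ℝ) ^ (1 / 4 : ℝ))⁻¹ < g → ¬ BddBelow (energies 1 g N))

theorem energies_one (α : ℝ) (N : ℕ) : energies α 1 N = Pool.Agent.T6.H42.energies α N := by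
  ext E
  constructor
  · rintro ⟨V, ⟨e, he, rfl⟩, ψ, ⟨h1, h2, h3⟩, h4⟩
    refine ⟨e, he, ψ, h1, h2, h3, ?_⟩
    rw [one_mul] at h4
    exact h4
  · rintro ⟨e, he, ψ, h1, h2, h3, h4⟩
    refine ⟨coul e, ⟨e, he, rfl⟩, ψ, ⟨h1, h2, h3⟩, ?_⟩
    rw [one_mul]
    exact h4

theorem kap_one : kap 1 = 1 / 4 := by unfold kap; norm_num

/-- **Charged bosons for all `α ≥ 1`.** For every `α ≥ 1` there are `c, C > 0` and `N₀`
(`N₀ = 2` if `α = 1`) such that for all `N ≥ N₀`: the inequality `-P ≤ C N^{κ(α)} K^{1/α}` holds and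
is optimal up to the constant; if `α > 1`, then `-C N^{γ(α)} ≤ E₀^{(α)}(N) ≤ -c N^{γ(α)}`; if
`α = 1`, then the critical coupling constant is between `(C N^{1/4})⁻¹` and `(c N^{1/4})⁻¹`. -/
theorem result (α : ℝ) (hα : 1 ≤ α) :
    ∃ c C : ℝ, 0 < c ∧ 0 < C ∧ ∃ N0 : ℕ, (α = 1 → N0 = 2) ∧ ∀ N : ℕ, N0 ≤ N →
      UpperBound α N C ∧ Optimality α N c ∧ (1 < α → EnergyOrder α N c C) ∧
      (α = 1 → CouplingOrder N c C) := by
  rcases hα.eq_or_lt with h1 | h1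
  · subst h1
    obtain ⟨c, hc, hsh⟩ := Pool.Agent.KS6_88.CB.sharp1
    have hC := Pool.Agent.KS6_88.CB.CF_pos
    refine ⟨c, Pool.Agent.KS6_88.CB.CF, hc, hC, 2, fun _ => rfl, fun N hN => ?_⟩
    have hNp : (0 : ℝ) < N := by exact_mod_cast (by omega : 0 < N)
    have hN4 : 0 < (N : ℝ) ^ (1 / 4 : ℝ) := Real.rpow_pos_of_pos hNp _
    have hup := Pool.Agent.KS6_88.CB.endpoint N
    obtain ⟨e, he, ψ, hn, hk, hi, hp0, hp⟩ := hsh N hN
    unfold UpperBound Optimality EnergyOrder CouplingOrder PotLe PotGe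
    rw [kap_one]
    simp only [div_one, Real.rpow_one]
    refine ⟨?_, ⟨e, he, ψ, ⟨hn, hk, hi⟩, hp0, hp⟩, fun h => absurd h (lt_irrefl _),
      fun _ g hg => ⟨?_, ?_⟩⟩
    · intro e he ψ _ hψ
      exact ⟨Pool.Agent.KS6_88.CB.int_all ψ hψ e, Pool.Agent.KS6_88.CB.real_charges ψ hψ _
        (fun s hs => (hup s hs ψ hψ).2) e he⟩
    · rintro hgC E ⟨V, ⟨e, he, rfl⟩, ψ, ⟨hn, hk, -⟩, rfl⟩
      have h2 := (hup e he ψ hk).2
      have h3 : -potForm (coul e) ψ ≤ Pool.Agent.KS6_88.CB.CF * (N : ℝ) ^ (1 / 4 : ℝ) *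
        (kinForm (symb 1 N) ψ).toReal := h2
      have h4 : 0 ≤ (kinForm (symb 1 N) ψ).toReal := ENNReal.toReal_nonneg
      have h5 : g * (-potForm (coul e) ψ) ≤ (Pool.Agent.KS6_88.CB.CF * (N : ℝ) ^ (1 / 4 : ℝ))⁻¹ *
          (Pool.Agent.KS6_88.CB.CF * (N : ℝ) ^ (1 / 4 : ℝ) * (kinForm (symb 1 N) ψ).toReal) := by
        calc g * (-potForm (coul e) ψ) ≤ g * (Pool.Agent.KS6_88.CB.CF * (N : ℝ) ^ (1 / 4 : ℝ) *
              (kinForm (symb 1 N) ψ).toReal) := by gcongr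
          _ ≤ _ := by
              apply mul_le_mul_of_nonneg_right hgC
              positivity
      rw [← mul_assoc, inv_mul_cancel₀ (by positivity), one_mul] at h5
      linarith
    · rintro hgc ⟨B, hB⟩
      have h2 : (Pool.Agent.T6.H42.kin 1 ψ).toReal + g * Pool.Agent.T6.H42.pot e ψ < 0 := by
        have h3 : (c * (N : ℝ) ^ (1 / 4 : ℝ))⁻¹ *
            (c * (N : ℝ) ^ (1 / 4 : ℝ) * (Pool.Agent.T6.H42.kin 1 ψ).toReal) ≤
            (c * (N : ℝ) ^ (1 / 4 : ℝ))⁻¹ * -Pool.Agent.T6.H42.pot e ψ := by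
          gcongr
        rw [← mul_assoc, inv_mul_cancel₀ (by positivity), one_mul] at h3
        have h4 : (c * (N : ℝ) ^ (1 / 4 : ℝ))⁻¹ * -Pool.Agent.T6.H42.pot e ψ <
            g * -Pool.Agent.T6.H42.pot e ψ := mul_lt_mul_of_pos_right hgc hp0
        linarith
      obtain ⟨φ, h3, h4, h5⟩ := Pool.Agent.KS6_88.CB.unstable hn hk h2 B
      have h6 := hB ⟨coul e, ⟨e, he, rfl⟩, φ,
        ⟨h3, h4, Pool.Agent.KS6_88.CB.int_all φ h4 e⟩, rfl⟩
      exact absurd h5 (not_lt.2 h6)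
  · obtain ⟨c, C, hc, hC, N0, H⟩ := Pool.Agent.KS6_88.CB.super α h1
    refine ⟨c, C, hc, hC, N0, fun h => absurd h h1.ne', fun N hN => ?_⟩
    obtain ⟨⟨a1, a2, a3, a4⟩, a5, e, he, ψ, b1, b2, b3, b4⟩ := H N hN
    refine ⟨a5, ⟨e, he, ψ, ⟨b1, b2, b3⟩, b4⟩, fun _ => ?_, fun h => absurd h h1.ne'⟩
    unfold EnergyOrder E0
    rw [energies_one]
    exact ⟨a3, a4, a1, a2⟩

end Pool.Agent.Results.MP_d1ae63_mp.EndpointOne
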